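import Pool.Agent.KS6_77.QPoly.Apply

/-!
# The number of the Manin components is not even eventually a quasi-polynomial

For the smooth Fano varieties `X = P (Sym ^ 3 S)` over the Grassmannians `G (2, N)`, `N ≥ 7`, the
number of the Manin components of the space of the morphisms of class `β` is not equal to a
quasi-polynomial in `β` (of any degree and any period) on any translate `α + Nef` of the nef cone of
curves. Every residue class of classes modulo every `m ≥ 1` contains, in every translate of the nef
cone, classes with at least two Manin components and classes with at most one component.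
-/

set_option autoImplicit false

namespace Pool.Agent.Results.MP_64a944_ag.NoQuasiPolynomial

open Pool.Agent.Y166.GM (PP Rep IsProjVar)
open Pool.Agent.Y166.SM (MorBi)
open Pool.Agent.Y198.MC (XX nefX)
open Pool.Agent.Y166.LT
open Pool.Agent.KS6_77.QPoly

theorem result (k : Type) [Field k] [IsAlgClosed k] [CharZero k] (N : ℕ) (hN : 7 ≤ N) :
    -- `X` is a smooth Fano variety of dimension `2 N - 1`
    IsProjVar (XX k N) ∧ AntiCan (XX k N) (2 * N - 1) (N - 6) 4 ∧
    -- the nef cone of curves of `X`
    nefX k N = {β | 0 ≤ β.1 ∧ 3 * β.1 ≤ 2 * β.2} ∧
    -- there are two Manin components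
    (∀ e d : ℕ, 3 * e + 5 ≤ 2 * d → d + 1 ≤ 2 * e →
      2 ≤ (maninL (2 * N - 1) (XX k N) e d).encard) ∧
    -- there is at most one component
    (∀ e d : ℕ, 3 * e ≤ d → (irreducibleComponents (MorBi (XX k N) e d)).encard ≤ 1) ∧
    -- the number of the Manin components is not a quasi-polynomial on any translate of the nef cone,
    -- and it is at least two and at most one in every residue class in every translate
    ∀ S, IsManinCount k N S → ∀ α : ℤ × ℤ,
      ¬ IsQuasiPolynomialOn (nefTranslate k N α) (fun e d => (S e d).encard) ∧
      BothInEveryResidueClass (nefTranslate k N α) (fun e d => (S e d).encard) :=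
  final k N hN

end Pool.Agent.Results.MP_64a944_ag.NoQuasiPolynomial
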